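import Mathlib

/-!
# A stable manifold over `z ↦ z ^ d` which is a complex line

For every `d ≥ 2` there is a holomorphic skew product `F (z, w) = (z ^ d, G_z w)` of `ℂ × ℂ²` such
that for all `|λ| = 1` the map `G_λ` is a (linear) automorphism of `ℂ²` for which the origin is an
attracting fixed point, but for `p = (p₁, 0)`, `p₁` in a dense subset of the unit circle, the stable
manifold of `p` is a complex line of the fibre over `p₁`. It is not biholomorphic to `ℂ²`.

Here `G_z (w₁, w₂) = (exp (c z) w₂, exp (- c z) w₁ / 2)`, whose eigenvalues are `± 1 / √2` for all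
`z`. For a point `lam` of period two for `z ↦ z ^ d` and `c = 2 / (lam ^ d - lam)` the composition of
the two maps along the orbit of `lam` is the saddle `(w₁, w₂) ↦ (e² w₁ / 2, e⁻² w₂ / 2)`. So the
hypothesis that the origin is attracting for every single `G_λ` does not imply that it is attracting
along the orbits of the circle.
-/

set_option autoImplicit false

open Filter Topology Set

namespace Pool.Agent.Results.MP_e40659_an.SaddleOrbit

/-- The data of a holomorphic map `F (z, w) = (z ^ d, G z w)` of `ℂ × ℂ²` such that for `|l| = 1` the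
map `G l` is a holomorphic automorphism of `ℂ²` fixing the origin, and the origin is an attracting
fixed point of `G l`: all eigenvalues of the derivative of `G l` at the origin have modulus less
than `1`. -/
structure SkewProduct (d : ℕ) where
  /-- the maps of the fibres -/
  G : ℂ → ℂ × ℂ → ℂ × ℂ
  holomorphic : Differentiable ℂ fun q : ℂ × (ℂ × ℂ) => G q.1 q.2
  automorphism : ∀ l : ℂ, ‖l‖ = 1 → ∃ H : ℂ × ℂ → ℂ × ℂ, Differentiable ℂ H ∧
    (∀ w, H (G l w) = w) ∧ ∀ w, G l (H w) = w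
  fixed : ∀ l : ℂ, ‖l‖ = 1 → G l 0 = 0
  attracting : ∀ l : ℂ, ‖l‖ = 1 → ∀ μ : ℂ,
    Module.End.HasEigenvalue (fderiv ℂ (G l) 0 : (ℂ × ℂ) →ₗ[ℂ] (ℂ × ℂ)) μ → ‖μ‖ < 1

namespace SkewProduct

variable {d : ℕ} (S : SkewProduct d)

/-- The map `F : ℂ³ → ℂ³`. -/
def F (q : ℂ × (ℂ × ℂ)) : ℂ × (ℂ × ℂ) := (q.1 ^ d, S.G q.1 q.2)

/-- The stable manifold of the point `(p, 0)`, as a subset of the fibre `ℂ²` over `p`: the points
whose orbits are asymptotic to the orbit of `(p, 0)`. -/
def stable (p : ℂ) : Set (ℂ × ℂ) :=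
  {w | Tendsto (fun n : ℕ => ‖S.F^[n] (p, w) - S.F^[n] (p, 0)‖) atTop (𝓝 0)}

end SkewProduct

/-! ### The example -/

/-- the matrix at `z` -/
noncomputable def A (c z : ℂ) : (ℂ × ℂ) ≃ₗ[ℂ] (ℂ × ℂ) where
  toFun w := (Complex.exp (c * z) * w.2, Complex.exp (-(c * z)) / 2 * w.1)
  invFun w := (2 * Complex.exp (c * z) * w.2, Complex.exp (-(c * z)) * w.1)
  map_add' v w := by ext <;> simp <;> ring
  map_smul' t w := by ext <;> simp <;> ring
  left_inv w := by
    have h : Complex.exp (c * z) * Complex.exp (-(c * z)) = 1 := by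
      rw [← Complex.exp_add]; simp
    ext
    · change 2 * Complex.exp (c * z) * (Complex.exp (-(c * z)) / 2 * w.1) = w.1
      linear_combination w.1 * h
    · change Complex.exp (-(c * z)) * (Complex.exp (c * z) * w.2) = w.2
      linear_combination w.2 * h
  right_inv w := by
    have h : Complex.exp (c * z) * Complex.exp (-(c * z)) = 1 := by
      rw [← Complex.exp_add]; simp
    ext
    · change Complex.exp (c * z) * (Complex.exp (-(c * z)) * w.1) = w.1
      linear_combination w.1 * h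
    · change Complex.exp (-(c * z)) / 2 * (2 * Complex.exp (c * z) * w.2) = w.2
      linear_combination w.2 * h

lemma A_apply (c z : ℂ) (w : ℂ × ℂ) :
    A c z w = (Complex.exp (c * z) * w.2, Complex.exp (-(c * z)) / 2 * w.1) := rfl

lemma A_diff (c z : ℂ) : Differentiable ℂ (A c z) := by
  have : (A c z : ℂ × ℂ → ℂ × ℂ) = fun w =>
      (Complex.exp (c * z) * w.2, Complex.exp (-(c * z)) / 2 * w.1) := rfl
  rw [this]
  fun_prop

lemma fderiv_A (c z : ℂ) (v : ℂ × ℂ) : fderiv ℂ (A c z) 0 v = A c z v := by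
  have h : HasFDerivAt (A c z) (LinearMap.toContinuousLinearMap (A c z : (ℂ × ℂ) →ₗ[ℂ] (ℂ × ℂ))) 0 :=
    (LinearMap.toContinuousLinearMap (A c z : (ℂ × ℂ) →ₗ[ℂ] (ℂ × ℂ))).hasFDerivAt
  rw [h.fderiv]
  rfl

/-- The example. -/
noncomputable def ex (d : ℕ) (c : ℂ) : SkewProduct d where
  G z w := A c z w
  holomorphic := by
    simp only [A_apply]
    fun_prop
  automorphism l _ := by
    refine ⟨(A c l).symm, ?_, fun w => (A c l).symm_apply_apply w, fun w =>
      (A c l).apply_symm_apply w⟩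
    have : ((A c l).symm : ℂ × ℂ → ℂ × ℂ) = fun w =>
      (2 * Complex.exp (c * l) * w.2, Complex.exp (-(c * l)) * w.1) := rfl
    rw [this]
    fun_prop
  fixed l _ := map_zero _
  attracting l _ μ hμ := by
    obtain ⟨v, hv, hv0⟩ := hμ.exists_hasEigenvector
    rw [Module.End.mem_eigenspace_iff] at hv
    have h1 : A c l v = μ • v := by
      rw [← hv, ← fderiv_A]
      rfl
    have e1 : Complex.exp (c * l) * v.2 = μ * v.1 := congrArg Prod.fst h1
    have e2 : Complex.exp (-(c * l)) / 2 * v.1 = μ * v.2 := congrArg Prod.snd h1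
    have h : Complex.exp (c * l) * Complex.exp (-(c * l)) = 1 := by
      rw [← Complex.exp_add]; simp
    have k1 : (μ ^ 2 - 1 / 2) * v.1 = 0 := by
      linear_combination (-μ) * e1 - Complex.exp (c * l) * e2 + (1 / 2 * v.1) * h
    have k2 : (μ ^ 2 - 1 / 2) * v.2 = 0 := by
      linear_combination (-μ) * e2 - (Complex.exp (-(c * l)) / 2) * e1 + (1 / 2 * v.2) * h
    have k3 : μ ^ 2 = 1 / 2 := by
      by_contra hne
      have hne' : μ ^ 2 - 1 / 2 ≠ 0 := sub_ne_zero.2 hne
      exact hv0 (Prod.ext ((mul_eq_zero.1 k1).resolve_left hne')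
        ((mul_eq_zero.1 k2).resolve_left hne'))
    have k4 : ‖μ‖ ^ 2 = 1 / 2 := by
      rw [← norm_pow, k3]; simp
    nlinarith [norm_nonneg μ]

/-- the product of the matrices along the orbit -/
noncomputable def L (d : ℕ) (c : ℂ) : ℕ → ℂ → (ℂ × ℂ) ≃ₗ[ℂ] (ℂ × ℂ)
  | 0, _ => LinearEquiv.refl ℂ _
  | n + 1, z => (A c z).trans (L d c n (z ^ d))

lemma iter (d : ℕ) (c : ℂ) (n : ℕ) (z : ℂ) (w : ℂ × ℂ) :
    (ex d c).F^[n] (z, w) = (z ^ d ^ n, L d c n z w) := by
  induction n generalizing z w with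
  | zero => simp [L]
  | succ n ih =>
    rw [Function.iterate_succ_apply]
    change (ex d c).F^[n] (z ^ d, A c z w) = _
    rw [ih]
    refine Prod.ext ?_ rfl
    change (z ^ d) ^ d ^ n = z ^ d ^ (n + 1)
    rw [← pow_mul, pow_succ, mul_comm]

lemma L_add (d : ℕ) (c : ℂ) (m n : ℕ) (z : ℂ) (w : ℂ × ℂ) :
    L d c (m + n) z w = L d c n (z ^ d ^ m) (L d c m z w) := by
  induction m generalizing z w with
  | zero => simp [L]
  | succ m ih =>
    have e : m + 1 + n = (m + n) + 1 := by omega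
    rw [e]
    change L d c (m + n) (z ^ d) (A c z w) = L d c n (z ^ d ^ (m + 1)) (L d c m (z ^ d) (A c z w))
    rw [ih, ← pow_mul, pow_succ, mul_comm]

lemma mem_stable (d : ℕ) (c : ℂ) (m : ℕ) (z : ℂ) (w : ℂ × ℂ) :
    w ∈ (ex d c).stable z ↔
      Tendsto (fun n : ℕ => ‖L d c n (z ^ d ^ m) (L d c m z w)‖) atTop (𝓝 0) := by
  have e : ∀ n, ‖(ex d c).F^[n] (z, w) - (ex d c).F^[n] (z, 0)‖ = ‖L d c n z w‖ := by
    intro n
    rw [iter, iter, map_zero]
    simp [Prod.norm_def]
  change Tendsto (fun n : ℕ => ‖(ex d c).F^[n] (z, w) - (ex d c).F^[n] (z, 0)‖) atTop (𝓝 0) ↔ _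
  simp only [e]
  rw [← tendsto_add_atTop_iff_nat m]
  refine tendsto_congr fun n => ?_
  rw [add_comm, L_add]

/-- The two step map at a point of period two. -/
lemma two_step {d : ℕ} {c lam : ℂ} (h : (lam ^ d) ^ d = lam) (hc : c * (lam ^ d - lam) = 2)
    (n : ℕ) (w : ℂ × ℂ) :
    L d c (2 * n) lam w =
      ((Complex.exp 2 / 2) ^ n * w.1, (Complex.exp (-2) / 2) ^ n * w.2) := by
  induction n generalizing w with
  | zero => simp [L]
  | succ n ih =>
    have e : 2 * (n + 1) = 2 * n + 1 + 1 := by ring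
    rw [e]
    change L d c (2 * n) ((lam ^ d) ^ d) (A c (lam ^ d) (A c lam w)) = _
    rw [h, ih, A_apply, A_apply]
    have e1 : Complex.exp (c * lam ^ d) * (Complex.exp (-(c * lam)) / 2 * w.1) =
        Complex.exp 2 / 2 * w.1 := by
      have : Complex.exp 2 = Complex.exp (c * lam ^ d) * Complex.exp (-(c * lam)) := by
        rw [← Complex.exp_add, ← hc]; ring_nf
      rw [this]; ring
    have e2 : Complex.exp (-(c * lam ^ d)) / 2 * (Complex.exp (c * lam) * w.2) =
        Complex.exp (-2) / 2 * w.2 := by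
      have : Complex.exp (-2) = Complex.exp (-(c * lam ^ d)) * Complex.exp (c * lam) := by
        rw [← Complex.exp_add, ← hc]; ring_nf
      rw [this]; ring
    simp only [e1, e2]
    refine Prod.ext ?_ ?_ <;> simp only <;> ring

lemma norm_exp_two : ‖Complex.exp 2 / 2‖ = Real.exp 2 / 2 := by
  have : Complex.exp 2 = ((Real.exp 2 : ℝ) : ℂ) := by push_cast; rfl
  rw [norm_div, this, Complex.norm_real, Real.norm_of_nonneg (Real.exp_pos _).le]
  simp

lemma norm_exp_neg_two : ‖Complex.exp (-2) / 2‖ = Real.exp (-2) / 2 := by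
  have : Complex.exp (-2) = ((Real.exp (-2) : ℝ) : ℂ) := by push_cast; rfl
  rw [norm_div, this, Complex.norm_real, Real.norm_of_nonneg (Real.exp_pos _).le]
  simp

lemma stable_lam {d : ℕ} {c lam : ℂ} (h : (lam ^ d) ^ d = lam)
    (hc : c * (lam ^ d - lam) = 2) (w : ℂ × ℂ) :
    Tendsto (fun n : ℕ => ‖L d c n lam w‖) atTop (𝓝 0) ↔ w.1 = 0 := by
  constructor
  · intro hT
    by_contra hw
    have h1 : Tendsto (fun n : ℕ => ‖L d c (2 * n) lam w‖) atTop (𝓝 0) :=
      hT.comp (tendsto_id.const_mul_atTop' (by norm_num : 0 < 2))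
    have h2 : ∀ n : ℕ, ‖w.1‖ ≤ ‖L d c (2 * n) lam w‖ := by
      intro n
      rw [two_step h hc]
      refine le_trans ?_ (norm_fst_le _)
      simp only [norm_mul, norm_pow, norm_exp_two]
      have h3 : (1 : ℝ) ≤ Real.exp 2 / 2 := by
        have := Real.add_one_le_exp (2 : ℝ)
        linarith
      exact le_mul_of_one_le_left (norm_nonneg _) (one_le_pow₀ h3)
    have h3 := ge_of_tendsto' h1 h2
    exact hw (norm_le_zero_iff.1 h3)
  · intro hw
    have hB : (0 : ℝ) ≤ Real.exp (-2) / 2 := by positivity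
    have hB1 : Real.exp (-2) / 2 < 1 := by
      have : Real.exp (-2) ≤ 1 := Real.exp_le_one_iff.2 (by norm_num)
      linarith
    have hE : ∀ n : ℕ, L d c (2 * n) lam w = (0, (Complex.exp (-2) / 2) ^ n * w.2) := by
      intro n
      rw [two_step h hc, hw, mul_zero]
    obtain ⟨C, hC0, hC⟩ : ∃ C : ℝ, 1 ≤ C ∧ ‖Complex.exp (c * lam)‖ ≤ C :=
      ⟨max 1 ‖Complex.exp (c * lam)‖, le_max_left _ _, le_max_right _ _⟩
    have hbd : ∀ n : ℕ, ‖L d c n lam w‖ ≤ C * ‖w.2‖ * (Real.exp (-2) / 2) ^ (n / 2) := by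
      intro n
      rcases Nat.even_or_odd' n with ⟨k, rfl | rfl⟩
      · rw [hE, show 2 * k / 2 = k by omega, Prod.norm_def]
        simp only [norm_zero, norm_mul, norm_pow, norm_exp_neg_two]
        rw [max_eq_right (by positivity)]
        have : (Real.exp (-2) / 2) ^ k * ‖w.2‖ ≤ C * ((Real.exp (-2) / 2) ^ k * ‖w.2‖) :=
          le_mul_of_one_le_left (by positivity) hC0
        linarith
      · rw [show (2 * k + 1) / 2 = k by omega, L_add]
        have e : lam ^ d ^ (2 * k) = lam := by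
          clear hE hw
          induction k with
          | zero => simp
          | succ k ih =>
            rw [show 2 * (k + 1) = 2 * k + 2 by ring, pow_add, pow_mul, ih, pow_two, pow_mul, h]
        rw [hE, e]
        change ‖A c lam (0, (Complex.exp (-2) / 2) ^ k * w.2)‖ ≤ _
        rw [A_apply, Prod.norm_def]
        simp only [mul_zero, norm_zero, norm_mul, norm_pow, norm_exp_neg_two]
        rw [max_eq_left (by positivity)]
        have : ‖Complex.exp (c * lam)‖ * ((Real.exp (-2) / 2) ^ k * ‖w.2‖) ≤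
            C * ((Real.exp (-2) / 2) ^ k * ‖w.2‖) :=
          mul_le_mul_of_nonneg_right hC (by positivity)
        linarith
    have hT : Tendsto (fun n : ℕ => C * ‖w.2‖ * (Real.exp (-2) / 2) ^ (n / 2)) atTop (𝓝 0) := by
      have h1 : Tendsto (fun n : ℕ => n / 2) atTop atTop :=
        Nat.tendsto_div_const_atTop (by norm_num)
      have h2 := (tendsto_pow_atTop_nhds_zero_of_lt_one hB hB1).comp h1
      simpa using h2.const_mul (C * ‖w.2‖)
    exact squeeze_zero (fun n => norm_nonneg _) hbd hT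

/-- There is no injective holomorphic map from `ℂ²` into a proper linear subspace of `ℂ²`. -/
lemma no_line {f : ℂ × ℂ → ℂ × ℂ} (hf : Differentiable ℂ f) (hinj : Function.Injective f)
    (e : (ℂ × ℂ) ≃ₗ[ℂ] (ℂ × ℂ)) (he : ∀ q, (e (f q)).1 = 0) : False := by
  obtain ⟨g, hg⟩ : ∃ g : ℂ × ℂ → ℂ, g = fun q => (e (f q)).2 := ⟨_, rfl⟩
  have hgd : Differentiable ℂ g := by
    have h1 : Differentiable ℂ (LinearMap.toContinuousLinearMap
        ((LinearMap.snd ℂ ℂ ℂ).comp (e : (ℂ × ℂ) →ₗ[ℂ] (ℂ × ℂ)))) :=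
      ContinuousLinearMap.differentiable _
    rw [hg]
    exact h1.comp hf
  have hgi : Function.Injective g := by
    intro a b hab
    apply hinj
    apply e.injective
    refine Prod.ext ?_ ?_
    · rw [he, he]
    · rw [hg] at hab
      exact hab
  -- the function `z ↦ g (z, 0)` is open at `0`
  have h0 : AnalyticAt ℂ (fun z : ℂ => g (z, 0)) 0 := by
    have : Differentiable ℂ (fun z : ℂ => g (z, 0)) :=
      hgd.comp (by fun_prop : Differentiable ℂ fun z : ℂ => (z, (0 : ℂ)))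
    exact this.analyticAt 0
  rcases h0.eventually_constant_or_nhds_le_map_nhds with h | h
  · have h2 := h.filter_mono (nhdsWithin_le_nhds (s := {0}ᶜ))
    obtain ⟨z, hz1, hz2⟩ := (h2.and eventually_mem_nhdsWithin).exists
    exact hz2 (congrArg Prod.fst (hgi hz1))
  · have h1 : Tendsto (fun w : ℂ => g (0, w)) (𝓝 0) (𝓝 (g (0, 0))) := by
      have : Continuous fun w : ℂ => g (0, w) :=
        hgd.continuous.comp (by fun_prop : Continuous fun w : ℂ => ((0 : ℂ), w))
      exact this.tendsto 0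
    have h2 : range (fun z : ℂ => g (z, 0)) ∈ 𝓝 (g (0, 0)) := by
      apply h
      rw [mem_map]
      exact univ_mem' fun z => mem_range_self z
    have h3 := (h1.eventually h2).filter_mono (nhdsWithin_le_nhds (s := {0}ᶜ))
    obtain ⟨w, ⟨z, hz⟩, hw⟩ := (h3.and eventually_mem_nhdsWithin).exists
    exact hw (congrArg Prod.snd (hgi hz)).symm

/-- The points of the circle which are mapped to `lam` by an iterate of `z ↦ z ^ d` are dense. -/
lemma dense_preimages {d : ℕ} (hd : 2 ≤ d) {lam : ℂ} (hlam : ‖lam‖ = 1) :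
    Metric.sphere (0 : ℂ) 1 ⊆ closure {p : ℂ | ‖p‖ = 1 ∧ ∃ m : ℕ, p ^ d ^ m = lam} := by
  intro q hq
  have hq1 : ‖q‖ = 1 := by simpa using hq
  obtain ⟨θ, hθ⟩ : ∃ θ : ℝ, q = Complex.exp (θ * Complex.I) :=
    ⟨Complex.arg q, by
      have := Complex.norm_mul_exp_arg_mul_I q
      rw [hq1] at this
      simpa using this.symm⟩
  obtain ⟨α, hα⟩ : ∃ α : ℝ, lam = Complex.exp (α * Complex.I) :=
    ⟨Complex.arg lam, by
      have := Complex.norm_mul_exp_arg_mul_I lam
      rw [hlam] at this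
      simpa using this.symm⟩
  have hd0 : (0 : ℝ) < d := by exact_mod_cast (by omega : 0 < d)
  -- the approximating angles
  obtain ⟨k, hk⟩ : ∃ k : ℕ → ℤ, k = fun m => ⌊((d : ℝ) ^ m * θ - α) / (2 * Real.pi)⌋ := ⟨_, rfl⟩
  obtain ⟨φ, hφ⟩ : ∃ φ : ℕ → ℝ, φ = fun m => (α + 2 * Real.pi * k m) / (d : ℝ) ^ m := ⟨_, rfl⟩
  have hpi := Real.pi_pos
  have hbound : ∀ m, |φ m - θ| ≤ 2 * Real.pi * (1 / d : ℝ) ^ m := by
    intro m
    have hdm : (0 : ℝ) < (d : ℝ) ^ m := pow_pos hd0 m
    have h1 := Int.floor_le (((d : ℝ) ^ m * θ - α) / (2 * Real.pi))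
    have h2 := Int.lt_floor_add_one (((d : ℝ) ^ m * θ - α) / (2 * Real.pi))
    have hkm : (k m : ℝ) = (⌊((d : ℝ) ^ m * θ - α) / (2 * Real.pi)⌋ : ℝ) := by rw [hk]
    rw [← hkm] at h1 h2
    rw [le_div_iff₀ (by positivity)] at h1
    rw [div_lt_iff₀ (by positivity)] at h2
    have e : φ m - θ = (α + 2 * Real.pi * k m - (d : ℝ) ^ m * θ) / (d : ℝ) ^ m := by
      rw [hφ]; field_simp
    rw [e, abs_div, abs_of_pos hdm, one_div, inv_pow, ← div_eq_mul_inv]
    apply div_le_div_of_nonneg_right _ hdm.le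
    rw [abs_le]
    constructor <;> nlinarith
  have hlim : Tendsto φ atTop (𝓝 θ) := by
    rw [tendsto_iff_norm_sub_tendsto_zero]
    refine squeeze_zero (fun m => norm_nonneg _) (fun m => hbound m) ?_
    have h1 : (1 / d : ℝ) < 1 := by
      rw [div_lt_one hd0]
      exact_mod_cast (by omega : 1 < d)
    have h2 := tendsto_pow_atTop_nhds_zero_of_lt_one (by positivity : (0 : ℝ) ≤ 1 / d) h1
    simpa using h2.const_mul (2 * Real.pi)
  refine mem_closure_of_tendsto (f := fun m : ℕ => Complex.exp (φ m * Complex.I)) (b := atTop)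
    ?_ (Eventually.of_forall fun m => ⟨?_, m, ?_⟩)
  · rw [hθ]
    have hc : Continuous fun x : ℝ => Complex.exp (x * Complex.I) := by fun_prop
    exact (hc.tendsto θ).comp hlim
  · exact Complex.norm_exp_ofReal_mul_I _
  · rw [← Complex.exp_nat_mul, hα]
    have hdm : (d : ℂ) ^ m ≠ 0 := by
      apply pow_ne_zero
      exact_mod_cast (by omega : d ≠ 0)
    have e : ((d ^ m : ℕ) : ℂ) * ((φ m : ℂ) * Complex.I) =
        α * Complex.I + (k m : ℂ) * (2 * Real.pi * Complex.I) := by
      rw [hφ]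
      push_cast
      field_simp
    rw [e, Complex.exp_add, Complex.exp_int_mul_two_pi_mul_I, mul_one]

/-- **A stable manifold which is a complex line.** For every `d ≥ 2` there is a skew product `F` as in
the question (`G_λ` is an automorphism of `ℂ²` with an attracting fixed point at the origin for all
`|λ| = 1`) such that for all `p` in a dense subset `D` of the unit circle the stable manifold of
`(p, 0)` is a complex line through the origin of the fibre `ℂ²`; and there is no injective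
holomorphic map from `ℂ²` to `ℂ²` whose image is this stable manifold. -/
theorem result (d : ℕ) (hd : 2 ≤ d) :
    ∃ (S : SkewProduct d) (D : Set ℂ), D ⊆ Metric.sphere 0 1 ∧ Metric.sphere 0 1 ⊆ closure D ∧
      ∀ p ∈ D, (∃ W : Submodule ℂ (ℂ × ℂ), Module.finrank ℂ W = 1 ∧ S.stable p = W) ∧
        ¬ ∃ f : ℂ × ℂ → ℂ × ℂ, Differentiable ℂ f ∧ Function.Injective f ∧
          range f = S.stable p := by
  -- a point of period two
  obtain ⟨lam, h1, h2, h3⟩ : ∃ lam : ℂ, ‖lam‖ = 1 ∧ (lam ^ d) ^ d = lam ∧ lam ^ d ≠ lam := by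
    have hN : d ^ 2 - 1 ≠ 0 := by
      have : 2 ^ 2 ≤ d ^ 2 := Nat.pow_le_pow_left hd 2
      omega
    have hprim := Complex.isPrimitiveRoot_exp (d ^ 2 - 1) hN
    refine ⟨Complex.exp (2 * Real.pi * Complex.I / ((d ^ 2 - 1 : ℕ) : ℂ)), hprim.norm'_eq_one hN,
      ?_, ?_⟩
    · rw [← pow_mul, ← pow_two]
      have hle : 1 ≤ d ^ 2 := Nat.one_le_pow _ _ (by omega)
      calc _ = Complex.exp (2 * Real.pi * Complex.I / ((d ^ 2 - 1 : ℕ) : ℂ)) ^ (d ^ 2 - 1 + 1) := by
            rw [Nat.sub_add_cancel hle]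
        _ = _ := by rw [pow_succ, hprim.pow_eq_one, one_mul]
    · intro h
      have hlt : d < d ^ 2 := by nlinarith
      have h5 : d ^ 2 - 1 ∣ d - 1 := by
        rw [← hprim.pow_eq_one_iff_dvd]
        have h4 := hprim.ne_zero hN
        have h6 : Complex.exp (2 * Real.pi * Complex.I / ((d ^ 2 - 1 : ℕ) : ℂ)) ^ (d - 1) *
            Complex.exp (2 * Real.pi * Complex.I / ((d ^ 2 - 1 : ℕ) : ℂ)) =
            1 * Complex.exp (2 * Real.pi * Complex.I / ((d ^ 2 - 1 : ℕ) : ℂ)) := by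
          rw [← pow_succ, show d - 1 + 1 = d by omega, h, one_mul]
        exact mul_right_cancel₀ h4 h6
      have := Nat.le_of_dvd (by omega) h5
      omega
  obtain ⟨c, hc⟩ : ∃ c : ℂ, c * (lam ^ d - lam) = 2 :=
    ⟨2 / (lam ^ d - lam), div_mul_cancel₀ _ (sub_ne_zero.2 h3)⟩
  refine ⟨ex d c, {p : ℂ | ‖p‖ = 1 ∧ ∃ m : ℕ, p ^ d ^ m = lam}, fun p hp => by simpa using hp.1,
    dense_preimages hd h1, ?_⟩
  rintro p ⟨-, m, hm⟩
  have hst : ∀ w, w ∈ (ex d c).stable p ↔ (L d c m p w).1 = 0 := by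
    intro w
    rw [mem_stable d c m, hm, stable_lam h2 hc]
  refine ⟨⟨Submodule.comap (L d c m p : (ℂ × ℂ) →ₗ[ℂ] (ℂ × ℂ)) (LinearMap.ker (LinearMap.fst ℂ ℂ ℂ)),
    ?_, ?_⟩, ?_⟩
  · have h5 : Module.finrank ℂ (LinearMap.ker (LinearMap.fst ℂ ℂ ℂ)) = 1 := by
      have h6 := LinearMap.finrank_range_add_finrank_ker (LinearMap.fst ℂ ℂ ℂ)
      rw [LinearMap.range_eq_top.2 Prod.fst_surjective, finrank_top] at h6
      simp at h6
      omega
    rw [← h5]
    exact LinearEquiv.finrank_eq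
      (LinearEquiv.ofSubmodule' (L d c m p) (LinearMap.ker (LinearMap.fst ℂ ℂ ℂ)))
  · ext w
    rw [hst]
    rfl
  · rintro ⟨f, hf, hinj, hr⟩
    refine no_line hf hinj (L d c m p) fun q => ?_
    rw [← hst, ← hr]
    exact mem_range_self q

end Pool.Agent.Results.MP_e40659_an.SaddleOrbit
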